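import Mathlib
import Pool.Agent.Q318.SymF.Key

/-!
# Any-dimensional non-negativity and positivity of symmetric functions are undecidable

Both problems are undecidable, even for homogeneous even symmetric functions.
-/

set_option autoImplicit false

namespace Pool.Agent.Results.MP_9c9736_lc.Undecidable

open Pool.Agent.Q318.SymF

/-- An instance: the finite list of the monomials of a polynomial in the power sums, with rational coefficients.
The entry `((u, v, w), [k₁, …, k_r])` stands for `(u - v) / (w + 1) * p_{k₁ + 1} ⋯ p_{k_r + 1}`. -/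
abbrev SymFun : Type := List ((ℕ × ℕ × ℕ) × List ℕ)

/-- The value at `x ∈ ℝⁿ` of the truncation `f^(n)`: the power sum `p_{k + 1}` is replaced by
`x_1 ^ (k + 1) + ⋯ + x_n ^ (k + 1)`. -/
noncomputable def value (f : SymFun) {n : ℕ} (x : Fin n → ℝ) : ℝ :=
  (f.map fun m => ((m.1.1 : ℝ) - m.1.2.1) / (m.1.2.2 + 1) * (m.2.map fun k => ∑ j, x j ^ (k + 1)).prod).sum

/-- `f` is any-dimensional non-negative. -/
def NonNegative (f : SymFun) : Prop := ∀ (n : ℕ) (x : Fin n → ℝ), 0 ≤ value f x

/-- `f` is homogeneous (of degree `d`). -/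
def IsHomogeneous (f : SymFun) : Prop :=
  ∃ d : ℕ, ∀ (n : ℕ) (x : Fin n → ℝ) (t : ℝ), value f (fun j => t * x j) = t ^ d * value f x

/-- `f` is any-dimensional positive; for homogeneous `f` the point `x = 0` is left out. -/
def Positive (f : SymFun) : Prop :=
  ∀ (n : ℕ) (x : Fin n → ℝ), (IsHomogeneous f → x ≠ 0) → 0 < value f x

/-- `f` is an even symmetric function: a polynomial in the power sums `p_2, p_4, p_6, …`. -/
def IsEven (f : SymFun) : Prop := ∀ m ∈ f, ∀ k ∈ m.2, Odd k

/-! ### From lists of rational monomials to codes -/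

/-- the code of a monomial in the power sums of the squares, without parameter -/
def enc (m : ℚ × List ℕ) : (ℕ × ℕ × ℕ) × List ℕ :=
  ((m.1.num.toNat, (-m.1.num).toNat, m.1.den - 1), m.2.map fun k => 2 * k - 1)

/-- multiplication of the coefficient -/
def mulc (c : ℕ) (m : (ℕ × ℕ × ℕ) × List ℕ) : (ℕ × ℕ × ℕ) × List ℕ :=
  ((c * m.1.1, c * m.1.2.1, m.1.2.2), m.2)

/-- the code for the parameter `a` -/
def code (T0 T1 T2 : List (ℚ × List ℕ)) (a : ℕ) : SymFun :=
  (T0.map enc).map (mulc 1) ++ ((T1.map enc).map (mulc a) ++ (T2.map enc).map (mulc (a ^ 2)))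

theorem mulc_primrec : Primrec₂ mulc := by
  have h : Primrec fun p : ℕ × ((ℕ × ℕ × ℕ) × List ℕ) =>
      (((p.1 * p.2.1.1, p.1 * p.2.1.2.1, p.2.1.2.2), p.2.2) : (ℕ × ℕ × ℕ) × List ℕ) := by
    have h1 : Primrec fun p : ℕ × ((ℕ × ℕ × ℕ) × List ℕ) => p.2.1 := Primrec.fst.comp Primrec.snd
    refine Primrec.pair (Primrec.pair ?_ (Primrec.pair ?_ ?_)) (Primrec.snd.comp Primrec.snd)
    · exact Primrec.nat_mul.comp Primrec.fst (Primrec.fst.comp h1)
    · exact Primrec.nat_mul.comp Primrec.fst (Primrec.fst.comp (Primrec.snd.comp h1))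
    · exact Primrec.snd.comp (Primrec.snd.comp h1)
  exact h.to₂

theorem code_primrec (T0 T1 T2 : List (ℚ × List ℕ)) : Primrec (code T0 T1 T2) := by
  unfold code
  have h : ∀ (T : List (ℚ × List ℕ)) (c : ℕ → ℕ), Primrec c →
      Primrec fun a => (T.map enc).map (mulc (c a)) := by
    intro T c hc
    exact Primrec.list_map (Primrec.const _) (mulc_primrec.comp (hc.comp Primrec.fst) Primrec.snd).to₂
  have hsq : Primrec fun a : ℕ => a ^ 2 := by
    have : Primrec fun a : ℕ => a * a := Primrec.nat_mul.comp Primrec.id Primrec.id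
    exact this.of_eq fun a => by ring
  exact Primrec.list_append.comp (h T0 _ (Primrec.const 1))
    (Primrec.list_append.comp (h T1 _ Primrec.id) (h T2 _ hsq))

/-- the power sums of the squares -/
noncomputable def sqs {n : ℕ} (x : Fin n → ℝ) : List ℝ := List.ofFn fun j => x j ^ 2

theorem psum_sqs {n : ℕ} (x : Fin n → ℝ) (k : ℕ) : psum (sqs x) k = ∑ j, (x j ^ 2) ^ k := by
  unfold psum sqs
  rw [List.map_ofFn, List.sum_ofFn]
  rfl

theorem value_append (f g : SymFun) {n : ℕ} (x : Fin n → ℝ) : value (f ++ g) x = value f x + value g x := by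
  simp [value]

theorem value_map (T : List (ℚ × List ℕ)) (hT : Good T) (c : ℕ) {n : ℕ} (x : Fin n → ℝ) :
    value ((T.map enc).map (mulc c)) x = c * ev T (psum (sqs x)) := by
  induction T with
  | nil => simp [value, ev]
  | cons m T ih =>
    have h1 := ih fun m' hm' => hT m' (List.mem_cons_of_mem _ hm')
    rw [ev_cons, mul_add, ← h1]
    simp only [List.map_cons, value, List.sum_cons]
    congr 1
    simp only [mulc, enc]
    have hl : (List.map (fun k => ∑ j, x j ^ (k + 1)) (List.map (fun k => 2 * k - 1) m.2)).prod =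
        (m.2.map (psum (sqs x))).prod := by
      rw [List.map_map]
      congr 1
      refine List.map_congr_left fun k hk => ?_
      have hk1 := hT m (List.mem_cons_self ..) k hk
      simp only [Function.comp_apply]
      rw [psum_sqs]
      refine Finset.sum_congr rfl fun j _ => ?_
      rw [← pow_mul]
      congr 1
      omega
    rw [hl]
    have hden : ((m.1.den - 1 : ℕ) : ℝ) + 1 = (m.1.den : ℝ) := by
      have := m.1.den_pos
      rw [Nat.cast_sub this]
      push_cast
      ring
    have hnum : ((m.1.num.toNat : ℕ) : ℝ) - ((-m.1.num).toNat : ℕ) = (m.1.num : ℝ) := by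
      have h3 : ((m.1.num.toNat : ℤ) : ℝ) - (((-m.1.num).toNat : ℤ) : ℝ) = ((m.1.num : ℤ) : ℝ) := by
        rw [← Int.cast_sub]
        congr 1
        omega
      simpa only [Int.cast_natCast] using h3
    have hq : (m.1 : ℝ) = (m.1.num : ℝ) / m.1.den := by
      conv_lhs => rw [← Rat.num_div_den m.1]
      push_cast
      rfl
    rw [hden, hq, ← hnum]
    push_cast
    ring

theorem value_code {T0 T1 T2 : List (ℚ × List ℕ)} (h0 : Good T0) (h1 : Good T1) (h2 : Good T2) (a : ℕ) {n : ℕ}
    (x : Fin n → ℝ) : value (code T0 T1 T2 a) x = ev T0 (psum (sqs x)) + a * ev T1 (psum (sqs x)) +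
      (a : ℝ) ^ 2 * ev T2 (psum (sqs x)) := by
  unfold code
  rw [value_append, value_append, value_map T0 h0, value_map T1 h1, value_map T2 h2]
  push_cast
  ring

theorem even_code (T0 T1 T2 : List (ℚ × List ℕ)) (h0 : Good T0) (h1 : Good T1) (h2 : Good T2) (a : ℕ) :
    IsEven (code T0 T1 T2 a) := by
  have key : ∀ (T : List (ℚ × List ℕ)) (c : ℕ), Good T → ∀ m ∈ (T.map enc).map (mulc c), ∀ k ∈ m.2, Odd k := by
    intro T c hT m hm k hk
    obtain ⟨m1, hm1, rfl⟩ := List.mem_map.1 hm
    obtain ⟨m2, hm2, rfl⟩ := List.mem_map.1 hm1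
    simp only [mulc, enc] at hk
    obtain ⟨j, hj, rfl⟩ := List.mem_map.1 hk
    have := hT m2 hm2 j hj
    exact ⟨j - 1, by omega⟩
  intro m hm
  unfold code at hm
  rcases List.mem_append.1 hm with hm | hm
  · exact key T0 1 h0 m hm
  · rcases List.mem_append.1 hm with hm | hm
    · exact key T1 a h1 m hm
    · exact key T2 _ h2 m hm

/-- homogeneity of lists of monomials -/
theorem ev_scale {w : ℕ} {T : List (ℚ × List ℕ)} (hT : ∀ m ∈ T, m.2.sum = w) {n : ℕ} (x : Fin n → ℝ) (t : ℝ) :
    ev T (psum (sqs fun j => t * x j)) = t ^ (2 * w) * ev T (psum (sqs x)) := by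
  have hp : ∀ k, psum (sqs fun j => t * x j) k = (t ^ 2) ^ k * psum (sqs x) k := by
    intro k
    rw [psum_sqs, psum_sqs, Finset.mul_sum]
    refine Finset.sum_congr rfl fun j _ => ?_
    rw [mul_pow, mul_pow]
  have hprod : ∀ l : List ℕ, (l.map (psum (sqs fun j => t * x j))).prod =
      (t ^ 2) ^ l.sum * (l.map (psum (sqs x))).prod := by
    intro l
    induction l with
    | nil => simp
    | cons k l ih =>
      rw [List.map_cons, List.prod_cons, ih, hp, List.map_cons, List.prod_cons, List.sum_cons, pow_add]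
      ring
  induction T with
  | nil => simp [ev]
  | cons m T ih =>
    rw [ev_cons, ev_cons, hprod, hT m (List.mem_cons_self ..), ih fun m' hm' => hT m' (List.mem_cons_of_mem _ hm'),
      ← pow_mul]
    ring

/-- a positive function is non-negative -/
theorem nonneg_of_pos {f : SymFun} (hf : Positive f) : NonNegative f := by
  intro n x
  by_cases hh : IsHomogeneous f
  · by_cases hx : x = 0
    · obtain ⟨d, hd⟩ := hh
      have h1 := hf 1 (fun _ => 1) (fun _ h => by have := congrFun h 0; simp at this)
      have h2 := hd 1 (fun _ => 1) 0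
      have h3 : value f x = value f (fun j : Fin 1 => (0 : ℝ) * (fun _ => 1) j) := by
        rw [hx]
        unfold value
        congr 1
        refine List.map_congr_left fun m _ => ?_
        congr 2
        refine List.map_congr_left fun k _ => ?_
        simp
      rw [h3, h2]
      exact mul_nonneg (pow_nonneg (le_refl _) _) h1.le
    · exact (hf n x fun _ => hx).le
  · exact (hf n x fun h => absurd h hh).le

/-- The construction: for every r.e. set `H` a computable sequence of homogeneous even symmetric functions which are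
positive for `a ∉ H` and take a negative value for `a ∈ H`. -/
theorem construction {H : ℕ → Prop} (hH : REPred H) : ∃ F : ℕ → SymFun, Computable F ∧
    (∀ a, IsEven (F a) ∧ IsHomogeneous (F a)) ∧ (∀ a, ¬ H a → Positive (F a)) ∧
    ∀ a, H a → ¬ NonNegative (F a) := by
  obtain ⟨T0, T1, T2, g0, g1, g2, hpos, hneg⟩ := key hH
  obtain ⟨d, hd⟩ : ∃ d : ℕ, ∀ m ∈ T0 ++ (T1 ++ T2), m.2.sum ≤ d := by
    generalize T0 ++ (T1 ++ T2) = T
    induction T with
    | nil => exact ⟨0, by simp⟩
    | cons m T ih =>
      obtain ⟨d, hd⟩ := ih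
      refine ⟨d + m.2.sum, fun m' hm' => ?_⟩
      rcases List.mem_cons.1 hm' with rfl | h
      · omega
      · have := hd m' h
        omega
  have d0 : ∀ m ∈ T0, m.2.sum ≤ d := fun m hm => hd m (by simp [hm])
  have d1 : ∀ m ∈ T1, m.2.sum ≤ d := fun m hm => hd m (by simp [hm])
  have d2 : ∀ m ∈ T2, m.2.sum ≤ d := fun m hm => hd m (by simp [hm])
  have k0 := good_hom (d := d) g0
  have k1 := good_hom (d := d) g1
  have k2 := good_hom (d := d) g2
  have hval : ∀ (a n : ℕ) (x : Fin n → ℝ), psum (sqs x) 2 ≠ 0 → psum (sqs x) 3 ≠ 0 →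
      value (code (hom d T0) (hom d T1) (hom d T2) a) x = psum (sqs x) 3 ^ d *
        (ev T0 (psum ((sqs x).map fun y => y / (psum (sqs x) 3 / (2 * psum (sqs x) 2)))) +
          a * ev T1 (psum ((sqs x).map fun y => y / (psum (sqs x) 3 / (2 * psum (sqs x) 2)))) +
          (a : ℝ) ^ 2 * ev T2 (psum ((sqs x).map fun y => y / (psum (sqs x) 3 / (2 * psum (sqs x) 2))))) := by
    intro a n x h2 h3
    rw [value_code k0 k1 k2, ev_hom d0 _ h2 h3, ev_hom d1 _ h2 h3, ev_hom d2 _ h2 h3, psum_scale]
    ring
  refine ⟨code (hom d T0) (hom d T1) (hom d T2), (code_primrec _ _ _).to_comp, fun a => ⟨?_, ?_⟩, ?_, ?_⟩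
  · exact even_code _ _ _ k0 k1 k2 a
  · refine ⟨2 * (3 * d), fun n x t => ?_⟩
    rw [value_code k0 k1 k2, value_code k0 k1 k2, ev_scale (weight_hom d0), ev_scale (weight_hom d1),
      ev_scale (weight_hom d2)]
    ring
  · intro a ha n x hx
    have hhom : IsHomogeneous (code (hom d T0) (hom d T1) (hom d T2) a) := by
      refine ⟨2 * (3 * d), fun n x t => ?_⟩
      rw [value_code k0 k1 k2, value_code k0 k1 k2, ev_scale (weight_hom d0), ev_scale (weight_hom d1),
        ev_scale (weight_hom d2)]
      ring
    have hx0 := hx hhom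
    obtain ⟨j, hj⟩ : ∃ j, x j ≠ 0 := by
      by_contra hcon
      push Not at hcon
      exact hx0 (funext hcon)
    have hp : ∀ k, 0 < psum (sqs x) k := by
      intro k
      rw [psum_sqs]
      have h1 : 0 < (x j ^ 2) ^ k := by positivity
      have h2 : (x j ^ 2) ^ k ≤ ∑ j, (x j ^ 2) ^ k :=
        Finset.single_le_sum (f := fun j => (x j ^ 2) ^ k) (fun _ _ => by positivity) (Finset.mem_univ j)
      linarith
    rw [hval a n x (hp 2).ne' (hp 3).ne']
    exact mul_pos (pow_pos (hp 3) _) (hpos a ha _)
  · intro a ha hcon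
    obtain ⟨ys, hy0, hy2, hy3, hlt⟩ := hneg a ha
    set x : Fin ys.length → ℝ := fun j => Real.sqrt (ys.get j) with hx
    have hsq : sqs x = ys := by
      unfold sqs
      rw [hx]
      have : (fun j : Fin ys.length => Real.sqrt (ys.get j) ^ 2) = ys.get := by
        funext j
        exact Real.sq_sqrt (hy0 _ (List.get_mem ys j))
      simp only [this]
      exact List.ofFn_get ys
    have h1 := hcon ys.length x
    rw [hval a _ x (by rw [hsq]; exact hy2.ne') (by rw [hsq, hy3]; positivity), hsq] at h1
    have h2 : psum ys 3 / (2 * psum ys 2) = 1 := by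
      rw [hy3]
      exact div_self (by positivity)
    rw [h2] at h1
    simp only [div_one, List.map_id'] at h1
    have h3 : 0 < psum ys 3 ^ d := pow_pos (by rw [hy3]; positivity) _
    exact absurd (mul_neg_of_pos_of_neg h3 hlt) (not_lt.2 h1)

/-- **The theorem.** There is no algorithm which decides, for symmetric functions with rational coefficients, whether
they are any-dimensional non-negative; there is none which decides whether they are any-dimensional positive. This is so
even for homogeneous even symmetric functions: every set `P` of instances which, among the homogeneous even symmetric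
functions, contains the positive ones and contains only non-negative ones is undecidable, and not even recursively
enumerable. -/
theorem result :
    ¬ ComputablePred NonNegative ∧ ¬ ComputablePred Positive ∧
    ∀ P : SymFun → Prop, (∀ f, IsHomogeneous f → IsEven f → Positive f → P f) →
      (∀ f, IsHomogeneous f → IsEven f → P f → NonNegative f) → ¬ REPred P := by
  have hmain : ∀ P : SymFun → Prop, (∀ f, IsHomogeneous f → IsEven f → Positive f → P f) →
      (∀ f, IsHomogeneous f → IsEven f → P f → NonNegative f) → ¬ REPred P := by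
    intro P hP1 hP2 hre
    obtain ⟨H, hH, hnH⟩ : ∃ H : ℕ → Prop, REPred H ∧ ¬ REPred fun a => ¬ H a := by
      refine ⟨fun n => (Nat.Partrec.Code.eval (Denumerable.ofNat Nat.Partrec.Code n) 0).Dom, ?_, ?_⟩
      · exact (Nat.Partrec.Code.eval_part.comp (Primrec.ofNat Nat.Partrec.Code).to_comp
          (Computable.const 0)).dom_re
      · intro h
        apply ComputablePred.halting_problem_not_re 0
        have h1 : REPred fun c : Nat.Partrec.Code =>
            ¬ (Nat.Partrec.Code.eval (Denumerable.ofNat Nat.Partrec.Code (Encodable.encode c)) 0).Dom := by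
          unfold REPred at h ⊢
          exact h.comp Computable.encode
        refine h1.of_eq fun c => ?_
        rw [Denumerable.ofNat_encode]
    obtain ⟨F, hF, hFe, hF1, hF2⟩ := construction hH
    apply hnH
    have h1 : REPred fun a => P (F a) := by
      unfold REPred at hre ⊢
      exact hre.comp hF
    refine h1.of_eq fun a => ⟨fun h2 h3 => ?_, fun h2 => ?_⟩
    · exact hF2 a h3 (hP2 _ (hFe a).2 (hFe a).1 h2)
    · exact hP1 _ (hFe a).2 (hFe a).1 (hF1 a h2)
  refine ⟨fun h => ?_, fun h => ?_, hmain⟩
  · exact hmain NonNegative (fun f _ _ => nonneg_of_pos) (fun f _ _ h => h) h.to_re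
  · exact hmain Positive (fun f _ _ h => h) (fun f _ _ => nonneg_of_pos) h.to_re

end Pool.Agent.Results.MP_9c9736_lc.Undecidable
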